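import Pool.Agent.H.MP_08c0df_gt.B

namespace Pool.Agent.Results.MP_08c0df_gt.No

abbrev W := Fin 6 → ℝ

def D (E : Fin 4 → W → W) (x : W) : Submodule ℝ W := Submodule.span ℝ (Set.range fun i => E i x)

noncomputable def q (E : Fin 4 → W → W) (x : W) (ψ : W →L[ℝ] ℝ) : ℝ :=
  let ω := fun i j => ψ (VectorField.lieBracket ℝ (E i) (E j) x)
  ω 0 1 * ω 2 3 - ω 0 2 * ω 1 3 + ω 0 3 * ω 1 2

noncomputable def dform (l : W → W →L[ℝ] ℝ) (x u v : W) : ℝ :=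
  fderiv ℝ l x u v - fderiv ℝ l x v u

open Pool.Agent.H.MP_08c0df_gt in
theorem result : ∃ (E : Fin 4 → W → W) (l : Fin 2 → W → W →L[ℝ] ℝ) (Z : Fin 2 → W → W),
    (∀ i, ContDiff ℝ (⊤ : ℕ∞) (E i)) ∧ (∀ i, ContDiff ℝ (⊤ : ℕ∞) (l i)) ∧
    (∀ i, ContDiff ℝ (⊤ : ℕ∞) (Z i)) ∧
    (∀ x, LinearIndependent ℝ fun i => E i x) ∧
    (∀ x, ∃ ψ ψ' : W →L[ℝ] ℝ, (∀ v ∈ D E x, ψ v = 0 ∧ ψ' v = 0) ∧ 0 < q E x ψ ∧ q E x ψ' < 0) ∧
    (∀ x v, v ∈ D E x ↔ l 0 x v = 0 ∧ l 1 x v = 0) ∧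
    (∀ x, IsCompl (D E x) (Submodule.span ℝ {Z 0 x, Z 1 x})) ∧
    (∀ x i j, l i x (Z j x) = if i = j then 1 else 0) ∧
    (∀ x i j, ∀ v ∈ D E x, dform (l j) x (Z i x) v = 0) ∧
    VectorField.lieBracket ℝ (Z 0) (Z 1) = 0 ∧
    ∀ (p : W) (U : Set W), IsOpen U → p ∈ U → ∀ φ : W → W, ContDiffOn ℝ (⊤ : ℕ∞) φ U →
      ¬ ∀ x ∈ U, ∀ v, v ∈ D E x ↔ fderiv ℝ φ x v 2 = φ x 1 * fderiv ℝ φ x v 0 ∧
        fderiv ℝ φ x v 5 = φ x 4 * fderiv ℝ φ x v 3 := by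
  have hD : ∀ x v, v ∈ D E x ↔ L 0 x v = 0 ∧ L 1 x v = 0 := by
    intro x v
    rw [D, mem_D]
    simp only [L, pr, Matrix.cons_val_zero, Matrix.cons_val_one, sub_apply, smul_apply,
      ContinuousLinearMap.proj_apply, smul_eq_mul]
    constructor <;> rintro ⟨h1, h2⟩ <;> constructor <;> linarith
  have hZ : ∀ x i j, L i x (ZZ j x) = if i = j then 1 else 0 := by
    intro x i j
    fin_cases i <;> fin_cases j <;> simp [L, ZZ, pr]
  refine ⟨E, L, ZZ, fun i => ?_, fun i => ?_, fun i => contDiff_const, fun x => ?_, fun x => ?_,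
    hD, fun x => ?_, hZ, fun x i j v _ => ?_, ?_,
    fun p U hU hp φ hφ h => noiso p U hU hp φ hφ h⟩
  · rw [contDiff_pi]
    intro j
    fin_cases i <;> fin_cases j <;> simp [E] <;> fun_prop
  · fin_cases i
    · exact (contDiff_const.sub ((contDiff_apply ℝ ℝ 1).smul contDiff_const)).sub
        (((contDiff_apply ℝ ℝ 3).mul (contDiff_apply ℝ ℝ 4)).smul contDiff_const)
    · exact contDiff_const.sub ((contDiff_apply ℝ ℝ 4).smul contDiff_const)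
  · rw [Fintype.linearIndependent_iff]
    intro c hc i
    have h0 := congrFun hc 0
    have h1 := congrFun hc 1
    have h3 := congrFun hc 3
    have h4 := congrFun hc 4
    simp [E, Fin.sum_univ_four] at h0 h1 h3 h4
    fin_cases i <;> assumption
  · refine ⟨L 0 x + (1 - x 3) • L 1 x, L 0 x + (-1 - x 3) • L 1 x, fun v hv => ?_, ?_, ?_⟩
    · obtain ⟨h1, h2⟩ := (hD x v).1 hv
      simp [h1, h2]
    · simp only [q, VectorField.lieBracket, dE]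
      simp [E, L, pr]
    · simp only [q, VectorField.lieBracket, dE]
      simp [E, L, pr]
  · refine ⟨Submodule.disjoint_def.2 fun v hv hz => ?_, codisjoint_iff.2 (eq_top_iff.2 fun v _ => ?_)⟩
    · obtain ⟨a, b, rfl⟩ := Submodule.mem_span_pair.1 hz
      obtain ⟨h1, h2⟩ := (hD x _).1 hv
      simp [hZ] at h1 h2
      simp [h1, h2]
    · refine Submodule.mem_sup.2 ⟨v - (L 0 x v • ZZ 0 x + L 1 x v • ZZ 1 x), (hD x _).2 ?_,
        L 0 x v • ZZ 0 x + L 1 x v • ZZ 1 x, Submodule.mem_span_pair.2 ⟨_, _, rfl⟩, by simp⟩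
      simp [hZ]
  · simp only [dform, (hL j x).fderiv]
    fin_cases i <;> fin_cases j <;> simp [ZZ, pr]
  · funext x
    have e : ∀ i, fderiv ℝ (ZZ i) x = 0 := fun i => (hasFDerivAt_const (ZZ i 0) x).fderiv
    simp [VectorField.lieBracket, e]

end Pool.Agent.Results.MP_08c0df_gt.No
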